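import Pool.Agent.H33.SMS.Targets

/-!
# MP_ec36a5_nt, board sms_modules, row THD: at least a third of all `n` is good
-/

set_option autoImplicit false

noncomputable section

namespace Pool.Agent.H12.SMS

open Pool.Agent.H33.SMS

lemma card_mult (m N : ℕ) :
    (((Finset.Icc 1 N).filter (fun n => m ∣ n)).card : ℝ) ≤ N * (1 / (m : ℝ)) := by
  have h1 : Finset.Icc 1 N = Finset.Ioc 0 N := by
    ext x
    simp only [Finset.mem_Icc, Finset.mem_Ioc]
    omega
  rw [h1, Nat.Ioc_filter_dvd_card_eq_div, mul_one_div]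
  exact Nat.cast_div_le

/-- the good numbers -/
def Gd (n : ℕ) : Prop := ∀ s, 1 ≤ s → s < n → 2 * s ≠ n → Det n s

open Classical in
theorem pf_THD (hC : T_CRD) (hG : T_GOO) (hS : T_STR) (hN : T_CNT) (hT : T_CTW) (hU : T_SUM) :
    T_THD := by
  intro N
  set I := Finset.Icc 1 N with hI
  set PP := (Finset.Icc 3 N).filter Nat.Prime with hPP
  set M8 := I.filter (fun n => 8 ∣ n) with hM8
  set B2 := I.filter (fun n => padicValNat 2 n = 2 ∧ Bad 2 n) with hB2
  set Mq : ℕ → Finset ℕ := fun p => I.filter (fun n => p ^ 2 ∣ n) with hMq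
  set Bq : ℕ → Finset ℕ := fun p => I.filter (fun n => p ∣ n ∧ Bad p n) with hBq
  have hsub : I.filter (fun n => ¬ Gd n) ⊆
      (M8 ∪ B2) ∪ PP.biUnion (fun p => Mq p ∪ Bq p) := by
    intro n hn
    rw [Finset.mem_filter] at hn
    obtain ⟨hnI, hbad⟩ := hn
    unfold Gd at hbad
    push Not at hbad
    obtain ⟨s, hs1, hsn, hs2, hdet⟩ := hbad
    by_contra hcon
    rw [Finset.mem_union, Finset.mem_union, Finset.mem_biUnion] at hcon
    push Not at hcon
    obtain ⟨⟨h8, h2⟩, hp⟩ := hcon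
    have h8' : ¬ 8 ∣ n := fun h => h8 (Finset.mem_filter.2 ⟨hnI, h⟩)
    have h2' : padicValNat 2 n = 2 → ¬ Bad 2 n := fun h h' =>
      h2 (Finset.mem_filter.2 ⟨hnI, h, h'⟩)
    have hp' : ∀ p, p.Prime → p ≠ 2 → p ∣ n → ¬ p ^ 2 ∣ n ∧ ¬ Bad p n := by
      intro p hpp hp2 hpn
      have hnI' := Finset.mem_Icc.1 hnI
      have hple : p ≤ N := (Nat.le_of_dvd (by omega) hpn).trans hnI'.2
      have hp3 : 3 ≤ p := by
        have := hpp.two_le
        omega
      have hmem : p ∈ PP := Finset.mem_filter.2 ⟨Finset.mem_Icc.2 ⟨hp3, hple⟩, hpp⟩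
      have h3 := hp p hmem
      rw [Finset.mem_union] at h3
      push Not at h3
      exact ⟨fun h => h3.1 (Finset.mem_filter.2 ⟨hnI, h⟩),
        fun h => h3.2 (Finset.mem_filter.2 ⟨hnI, hpn, h⟩)⟩
    obtain ⟨p, hpp, hpn, hps, hpb⟩ := hS n s hs1 hsn hs2 h8' h2' hp'
    exact hdet (hC p n s (hG p n s hpp hpn hpb hps hsn) hsn)
  have hcard : ((I.filter (fun n => ¬ Gd n)).card : ℝ) ≤
      N * (2 / 3) := by
    have c1 := Finset.card_le_card hsub
    have c2 : ((M8 ∪ B2) ∪ PP.biUnion (fun p => Mq p ∪ Bq p)).card ≤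
        (M8.card + B2.card) + ∑ p ∈ PP, ((Mq p).card + (Bq p).card) := by
      refine (Finset.card_union_le _ _).trans (Nat.add_le_add (Finset.card_union_le _ _) ?_)
      refine Finset.card_biUnion_le.trans (Finset.sum_le_sum fun p _ => Finset.card_union_le _ _)
    have c3 : ((I.filter (fun n => ¬ Gd n)).card : ℝ) ≤
        ((M8.card : ℝ) + B2.card) + ∑ p ∈ PP, (((Mq p).card : ℝ) + (Bq p).card) := by
      exact_mod_cast c1.trans c2
    have d1 : (M8.card : ℝ) ≤ N * (1 / 8) := by
      have := card_mult 8 N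
      push_cast at this
      exact this
    have d2 : (B2.card : ℝ) ≤ N * (5 / 128) := by
      have := hT N
      convert this using 3
    have d3 : ∀ p ∈ PP, (((Mq p).card : ℝ) + (Bq p).card) ≤
        N * (1 / (p : ℝ) ^ 2 + 1 / ((p : ℝ) * (p - 1))) := by
      intro p hp
      have hpp : p.Prime := (Finset.mem_filter.1 hp).2
      have e1 : ((Mq p).card : ℝ) ≤ N * (1 / (p : ℝ) ^ 2) := by
        have := card_mult (p ^ 2) N
        push_cast at this
        exact this
      have e2 : ((Bq p).card : ℝ) ≤ N * (1 / ((p : ℝ) * (p - 1))) := by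
        have := hN p N hpp
        convert this using 3
      rw [mul_add]
      exact add_le_add e1 e2
    have d4 : ∑ p ∈ PP, (((Mq p).card : ℝ) + (Bq p).card) ≤ N * (4955 / 10000) := by
      refine (Finset.sum_le_sum d3).trans ?_
      rw [← Finset.mul_sum]
      refine mul_le_mul_of_nonneg_left ?_ (Nat.cast_nonneg N)
      have := hU N
      convert this using 3
    have hN0 : (0 : ℝ) ≤ N := Nat.cast_nonneg N
    linarith
  have htot := Finset.card_filter_add_card_filter_not (s := I)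
    (fun n => Gd n)
  have hIc : I.card = N := by rw [hI, Nat.card_Icc]; omega
  rw [hIc] at htot
  have htot' : ((I.filter (fun n => Gd n)).card : ℝ) +
      ((I.filter (fun n => ¬ Gd n)).card : ℝ) = N := by
    exact_mod_cast htot
  have hN0 : (0 : ℝ) ≤ N := Nat.cast_nonneg N
  have hgoal : (N : ℝ) / 3 ≤
      ((I.filter (fun n => Gd n)).card : ℝ) := by
    linarith
  refine hgoal.trans (le_of_eq ?_)
  congr 2

end Pool.Agent.H12.SMS
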